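import Mathlib
import Pool.Agent.Helper113.Gorin.Schottky

/-! Attracting cycles of `z ^ d + c` attract the critical point, and the density of the hyperbolic
parameters is the density of the parameters with an attracting cycle in the Multibrot set. -/

set_option autoImplicit false

open Filter Topology Metric Set

namespace Pool.Agent.Y334.FU

/-- the map -/
def fm (d : ℕ) (c : ℂ) : ℂ → ℂ := fun z => z ^ d + c

/-- the critical orbit escapes -/
def EscU (d : ℕ) (c : ℂ) : Prop := Tendsto (fun k : ℕ => ‖(fm d c)^[k] 0‖) atTop atTop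

/-- attracting cycle -/
def AttU (d : ℕ) (c z : ℂ) (k : ℕ) : Prop :=
  0 < k ∧ (fm d c)^[k] z = z ∧ ‖deriv ((fm d c)^[k]) z‖ < 1

theorem fm_diff (d : ℕ) (c : ℂ) : Differentiable ℂ (fm d c) := by
  unfold fm
  fun_prop

theorem P_diff (d n : ℕ) : Differentiable ℂ fun c : ℂ => (fm d c)^[n] 0 := by
  induction n with
  | zero => exact differentiable_const _
  | succ n ih =>
    have h1 : (fun c : ℂ => (fm d c)^[n + 1] 0) = fun c => ((fm d c)^[n] 0) ^ d + c := by
      funext c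
      rw [Function.iterate_succ_apply']
      rfl
    rw [h1]
    exact (ih.pow d).add differentiable_id

theorem fm_esc {d : ℕ} (hd : 2 ≤ d) {c z : ℂ} (hz : ‖c‖ + 3 ≤ ‖z‖) : 2 * ‖z‖ ≤ ‖fm d c z‖ := by
  have hc := norm_nonneg c
  have h1 : ‖z ^ d‖ ≤ ‖fm d c z‖ + ‖c‖ := by
    have h3 := norm_sub_le (fm d c z) c
    have e : fm d c z - c = z ^ d := by
      show z ^ d + c - c = z ^ d
      ring
    rwa [e] at h3
  have h2 : ‖z‖ ^ 2 ≤ ‖z ^ d‖ := by
    rw [norm_pow]
    exact pow_le_pow_right₀ (by linarith) hd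
  nlinarith

theorem fm_pow {d : ℕ} (hd : 2 ≤ d) {c z : ℂ} (hz : ‖c‖ + 3 ≤ ‖z‖) (k : ℕ) :
    2 ^ k * (‖c‖ + 3) ≤ ‖(fm d c)^[k] z‖ := by
  have hc := norm_nonneg c
  induction k with
  | zero => simpa using hz
  | succ k ih =>
    rw [Function.iterate_succ_apply']
    have h1 : (1 : ℝ) ≤ 2 ^ k := one_le_pow₀ (by norm_num)
    have h4 : ‖c‖ + 3 ≤ ‖(fm d c)^[k] z‖ := by nlinarith
    have h5 := fm_esc hd h4
    rw [pow_succ]
    linarith

theorem bdd_of_not_esc {d : ℕ} (hd : 2 ≤ d) {c : ℂ} (h : ¬ EscU d c) (k : ℕ) :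
    ‖(fm d c)^[k] 0‖ < ‖c‖ + 3 := by
  by_contra hcon
  push Not at hcon
  apply h
  have h1 : Tendsto (fun j : ℕ => ‖(fm d c)^[j] ((fm d c)^[k] 0)‖) atTop atTop := by
    refine tendsto_atTop_mono (fun j => ?_) (tendsto_pow_atTop_atTop_of_one_lt
      (one_lt_two : (1 : ℝ) < 2))
    have h2 := fm_pow hd hcon j
    have h3 : (0 : ℝ) < 2 ^ j := by positivity
    have hc := norm_nonneg c
    nlinarith
  show Tendsto (fun j : ℕ => ‖(fm d c)^[j] 0‖) atTop atTop
  rw [← tendsto_add_atTop_iff_nat k]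
  refine h1.congr fun j => ?_
  rw [Function.iterate_add_apply]

/-- a vanishing critical orbit gives an attracting cycle -/
theorem att_of_zero {d : ℕ} (hd : 2 ≤ d) {c : ℂ} {n : ℕ} (hn : 1 ≤ n)
    (h : (fm d c)^[n] 0 = 0) : AttU d c 0 n := by
  refine ⟨hn, h, ?_⟩
  obtain ⟨m, rfl⟩ : ∃ m, n = m + 1 := ⟨n - 1, by omega⟩
  have h1 : HasDerivAt (fm d c) 0 0 := by
    have h2 := (hasDerivAt_pow d (0 : ℂ)).add_const c
    rw [zero_pow (by omega : d - 1 ≠ 0), mul_zero] at h2
    exact h2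
  have h3 : HasDerivAt ((fm d c)^[m]) (deriv ((fm d c)^[m]) (fm d c 0)) (fm d c 0) :=
    ((fm_diff d c).iterate m _).hasDerivAt
  have h4 := h3.comp (0 : ℂ) h1
  rw [mul_zero] at h4
  rw [Function.iterate_succ, h4.deriv, norm_zero]
  exact one_pos

/-- discs without attracting cycles consist of parameters of one kind -/
theorem half_disc {d : ℕ} (hd : 2 ≤ d) {c : ℂ} {s : ℝ} (hs : 0 < s) (hc : ¬ EscU d c)
    (hno : ∀ c' ∈ ball c s, ∀ n, 1 ≤ n → (fm d c')^[n] 0 ≠ 0) {c' : ℂ}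
    (hc' : c' ∈ ball c (s / 2)) : ¬ EscU d c' := by
  have hne : ∀ c' ∈ ball c s, c' ≠ 0 := fun c' hc' h => by
    apply hno c' hc' 1 le_rfl
    show (0 : ℂ) ^ d + c' = 0
    rw [h, zero_pow (by omega), add_zero]
  have hc0 : c ≠ 0 := hne c (mem_ball_self hs)
  have hcn : 0 < ‖c‖ := norm_pos_iff.2 hc0
  have hcb := bdd_of_not_esc hd hc
  set M : ℝ := 1 + 2 * (‖c‖ + 3) ^ d / ‖c‖ with hM
  set C : ℝ := Real.exp (Real.pi * Real.exp (Real.pi * (M + 386))) with hC
  have hmap : ∀ w ∈ ball (0 : ℂ) 1, c + s * w ∈ ball c s := by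
    intro w hw
    rw [mem_ball_zero_iff] at hw
    rw [mem_ball_iff_norm, add_sub_cancel_left, norm_mul, Complex.norm_real, Real.norm_eq_abs,
      abs_of_pos hs]
    nlinarith
  set w : ℂ := (c' - c) / s with hw
  have hsC : (s : ℂ) ≠ 0 := by exact_mod_cast hs.ne'
  have hcw : c + s * w = c' := by rw [hw]; field_simp; ring
  have hwn : w ∈ ball (0 : ℂ) (1 / 2) := by
    rw [mem_ball_zero_iff, hw, norm_div, Complex.norm_real, Real.norm_eq_abs, abs_of_pos hs,
      div_lt_iff₀ hs]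
    rw [mem_ball_iff_norm] at hc'
    linarith
  have hc's : c' ∈ ball c s := ball_subset_ball (by linarith) hc'
  have hbound : ∀ n, 1 ≤ n → ‖(fm d c')^[n] 0‖ ^ d ≤ (C + 1) * ‖c'‖ := by
    intro n hn
    set f : ℂ → ℂ := fun w => 1 + 2 * ((fm d (c + s * w))^[n] 0) ^ d / (c + s * w) with hf
    have hfd : DifferentiableOn ℂ f (ball 0 1) := by
      intro x hx
      apply DifferentiableAt.differentiableWithinAt
      have h1 : DifferentiableAt ℂ (fun w : ℂ => c + s * w) x := by fun_prop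
      have h2 : DifferentiableAt ℂ (fun w : ℂ => (fm d (c + s * w))^[n] 0) x :=
        DifferentiableAt.comp x (P_diff d n _) h1
      exact (((h2.pow d).const_mul 2).div h1 (hne _ (hmap x hx))).const_add 1
    have h1 : ∀ x ∈ ball (0 : ℂ) 1, f x ≠ 1 := by
      intro x hx h
      have h2 : 2 * ((fm d (c + s * x))^[n] 0) ^ d / (c + s * x) = 0 := by
        have h3 : 1 + 2 * ((fm d (c + s * x))^[n] 0) ^ d / (c + s * x) = 1 := h
        exact add_eq_left.1 h3
      rcases div_eq_zero_iff.mp h2 with h3 | h3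
      · have h4 := (mul_eq_zero.mp h3).resolve_left two_ne_zero
        exact hno _ (hmap x hx) n hn (pow_eq_zero_iff (by omega) |>.mp h4)
      · exact hne _ (hmap x hx) h3
    have h2 : ∀ x ∈ ball (0 : ℂ) 1, f x ≠ -1 := by
      intro x hx h
      have hx0 := hne _ (hmap x hx)
      have h3 : 1 + 2 * ((fm d (c + s * x))^[n] 0) ^ d / (c + s * x) = -1 := h
      have h4 : ((fm d (c + s * x))^[n] 0) ^ d + (c + s * x) = 0 := by
        field_simp at h3
        linear_combination h3 / 2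
      apply hno _ (hmap x hx) (n + 1) (by omega)
      rw [Function.iterate_succ_apply']
      exact h4
    have h3 : ‖f 0‖ ≤ M := by
      simp only [hf, mul_zero, add_zero]
      refine (norm_add_le _ _).trans ?_
      rw [norm_one, norm_div, norm_mul, norm_pow, hM]
      have h4 : ‖(fm d c)^[n] 0‖ ^ d ≤ (‖c‖ + 3) ^ d :=
        pow_le_pow_left₀ (norm_nonneg _) (hcb n).le d
      have h5 : ‖(2 : ℂ)‖ = 2 := by simp
      rw [h5]
      gcongr
    have h4 := H113G.schottky_all f M hfd h1 h2 h3 w hwn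
    simp only [hf, hcw] at h4
    have hc'0 : 0 < ‖c'‖ := norm_pos_iff.mpr (hne c' hc's)
    have h5 : ‖2 * ((fm d c')^[n] 0) ^ d / c'‖ ≤ C + 1 := by
      have h6 : ‖2 * ((fm d c')^[n] 0) ^ d / c'‖ ≤
          ‖1 + 2 * ((fm d c')^[n] 0) ^ d / c'‖ + ‖(1 : ℂ)‖ := by
        have := norm_sub_le (1 + 2 * ((fm d c')^[n] 0) ^ d / c') 1
        rwa [add_sub_cancel_left] at this
      rw [norm_one] at h6
      linarith
    rw [norm_div, norm_mul, norm_pow, div_le_iff₀ hc'0] at h5
    have h6 : ‖(2 : ℂ)‖ = 2 := by simp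
    rw [h6] at h5
    have h7 : 0 ≤ ‖(fm d c')^[n] 0‖ ^ d := by positivity
    linarith
  intro h1
  have h2 := (h1.eventually (eventually_gt_atTop (max 1 ((C + 1) * ‖c'‖)))).and
    (eventually_ge_atTop 1)
  obtain ⟨n, hn1, hn2⟩ := h2.exists
  have h3 := hbound n hn2
  have h4 : 1 < ‖(fm d c')^[n] 0‖ := (le_max_left _ _).trans_lt hn1
  have h5 : (C + 1) * ‖c'‖ < ‖(fm d c')^[n] 0‖ := (le_max_right _ _).trans_lt hn1
  have h6 : ‖(fm d c')^[n] 0‖ ≤ ‖(fm d c')^[n] 0‖ ^ d := le_self_pow₀ h4.le (by omega)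
  linarith

/-! ### Inverse branches -/

theorem exists_root {h : ℂ → ℂ} {u : ℂ} {δ : ℝ} (hδ : 0 < δ) {d : ℕ} (hd : 1 ≤ d)
    (hh : DifferentiableOn ℂ h (ball u δ)) (h0 : ∀ z ∈ ball u δ, h z ≠ 0) :
    ∃ s : ℂ → ℂ, DifferentiableOn ℂ s (ball u δ) ∧ ∀ z ∈ ball u δ, s z ^ d = h z := by
  have hδc : (δ : ℂ) ≠ 0 := by exact_mod_cast hδ.ne'
  have hdc : (d : ℂ) ≠ 0 := by
    have : d ≠ 0 := by omega
    exact_mod_cast this
  have hmap : ∀ w ∈ ball (0 : ℂ) 1, u + δ * w ∈ ball u δ := by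
    intro w hw
    rw [mem_ball_zero_iff] at hw
    rw [mem_ball_iff_norm, add_sub_cancel_left, norm_mul, Complex.norm_real, Real.norm_eq_abs,
      abs_of_pos hδ]
    nlinarith
  have hmap' : ∀ z ∈ ball u δ, (z - u) / δ ∈ ball (0 : ℂ) 1 := by
    intro z hz
    rw [mem_ball_iff_norm] at hz
    rw [mem_ball_zero_iff, norm_div, Complex.norm_real, Real.norm_eq_abs, abs_of_pos hδ,
      div_lt_one hδ]
    exact hz
  have hg : DifferentiableOn ℂ (fun w => h (u + δ * w)) (ball 0 1) := by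
    apply hh.comp _ hmap
    exact (differentiableOn_id.const_mul _).const_add _
  obtain ⟨g, hgd, hge⟩ := H113G.J_schottky.exists_log hg (fun w hw => h0 _ (hmap w hw))
  refine ⟨fun z => Complex.exp (g ((z - u) / δ) / d), ?_, ?_⟩
  · apply DifferentiableOn.cexp
    apply DifferentiableOn.div_const
    apply hgd.comp _ hmap'
    exact (differentiableOn_id.sub_const _).div_const _
  · intro z hz
    rw [← Complex.exp_nat_mul]
    have h1 := hge _ (hmap' z hz)
    have e : u + δ * ((z - u) / δ) = z := by field_simp; ring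
    rw [e] at h1
    rw [← h1]
    congr 1
    field_simp

/-- inverse branches on balls which do not meet the critical orbit -/
theorem branchU {d : ℕ} (hd : 2 ≤ d) {c u₀ : ℂ} {δ : ℝ} (hδ : 0 < δ) (n : ℕ) :
    ∀ v₀ : ℂ, (fm d c)^[n] v₀ = u₀ →
    (∀ j, 1 ≤ j → j ≤ n → (fm d c)^[j] 0 ∉ ball u₀ δ) →
    ∃ φ : ℂ → ℂ, DifferentiableOn ℂ φ (ball u₀ δ) ∧ φ u₀ = v₀ ∧
      ∀ u ∈ ball u₀ δ, (fm d c)^[n] (φ u) = u := by
  induction n with
  | zero =>
    intro v₀ hv _
    exact ⟨fun z => z, differentiableOn_id, hv.symm, fun u _ => rfl⟩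
  | succ n ih =>
    intro v₀ hv hcrit
    rw [Function.iterate_succ_apply] at hv
    obtain ⟨φ, hφ, hφ0, hφe⟩ := ih _ hv (fun j hj hjn => hcrit j hj (by omega))
    have hne : ∀ z ∈ ball u₀ δ, φ z - c ≠ 0 := by
      intro z hz h
      have h1 := hφe z hz
      rw [sub_eq_zero.1 h] at h1
      apply hcrit (n + 1) (by omega) le_rfl
      rw [Function.iterate_succ_apply]
      have h2 : fm d c 0 = c := by
        show (0 : ℂ) ^ d + c = c
        rw [zero_pow (by omega), zero_add]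
      rw [h2, h1]
      exact hz
    obtain ⟨s, hs, hse⟩ := exists_root hδ (by omega : 1 ≤ d) (hφ.sub_const c) hne
    have h0 : u₀ ∈ ball u₀ δ := mem_ball_self hδ
    have h1 : s u₀ ^ d = v₀ ^ d := by
      rw [hse u₀ h0, hφ0]
      show v₀ ^ d + c - c = v₀ ^ d
      ring
    have hs0 : s u₀ ≠ 0 := by
      intro h
      apply hne u₀ h0
      rw [← hse u₀ h0, h, zero_pow (by omega)]
    refine ⟨fun z => v₀ / s u₀ * s z, hs.const_mul _, ?_, ?_⟩
    · show v₀ / s u₀ * s u₀ = v₀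
      field_simp
    · intro u hu
      rw [Function.iterate_succ_apply]
      have e : fm d c (v₀ / s u₀ * s u) = φ u := by
        show (v₀ / s u₀ * s u) ^ d + c = φ u
        rw [mul_pow, div_pow, ← h1, div_self (pow_ne_zero _ hs0), one_mul, hse u hu]
        ring
      rw [e]
      exact hφe u hu

/-- preimages of a large ball are in this ball -/
theorem norm_le_iterU {d : ℕ} (hd : 2 ≤ d) {c : ℂ} {R : ℝ} (hR : ‖c‖ + 3 ≤ R) (n : ℕ) :
    ∀ v : ℂ, ‖(fm d c)^[n] v‖ ≤ R → ‖v‖ ≤ R := by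
  induction n with
  | zero => intro v hv; exact hv
  | succ n ih =>
    intro v hv
    rw [Function.iterate_succ_apply] at hv
    have h1 := ih _ hv
    by_contra hcon
    push Not at hcon
    have h2 := fm_esc hd (c := c) (z := v) (by linarith)
    have hc := norm_nonneg c
    linarith

/-- **Fatou: an attracting cycle attracts the critical point.** -/
theorem fatouU {d : ℕ} (hd : 2 ≤ d) {c z : ℂ} {N : ℕ} (h : AttU d c z N) :
    ∃ j, Tendsto (fun k => (fm d c)^[j + N * k] 0) atTop (𝓝 z) := by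
  obtain ⟨hN, hfix, hlt⟩ := h
  obtain ⟨g, hgdef⟩ : ∃ g, g = (fm d c)^[N] := ⟨_, rfl⟩
  have hg : Differentiable ℂ g := by rw [hgdef]; exact (fm_diff d c).iterate N
  rw [← hgdef] at hfix hlt
  obtain ⟨L, hL⟩ : ∃ L, L = ‖deriv g z‖ := ⟨_, rfl⟩
  have hL0 : 0 ≤ L := by rw [hL]; exact norm_nonneg _
  rw [← hL] at hlt
  -- contraction near `z`
  obtain ⟨ε, hε, hcontr⟩ : ∃ ε > 0, ∀ w ∈ ball z ε, ‖g w - z‖ ≤ (L + 1) / 2 * ‖w - z‖ := by
    have h1 := (hg z).hasDerivAt
    rw [hasDerivAt_iff_isLittleO] at h1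
    have h2 := h1.def (show 0 < (1 - L) / 2 by linarith)
    obtain ⟨ε, hε, h3⟩ := Metric.eventually_nhds_iff_ball.1 h2
    refine ⟨ε, hε, fun w hw => ?_⟩
    have h4 := h3 w hw
    rw [hfix] at h4
    have h5 := norm_add_le (g w - z - (w - z) • deriv g z) ((w - z) • deriv g z)
    rw [sub_add_cancel, norm_smul, ← hL] at h5
    nlinarith [norm_nonneg (w - z)]
  have hiter : ∀ w ∈ ball z ε, ∀ k, ‖g^[k] w - z‖ ≤ ((L + 1) / 2) ^ k * ‖w - z‖ ∧
      g^[k] w ∈ ball z ε := by
    intro w hw k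
    induction k with
    | zero => simpa using hw
    | succ k ih =>
      rw [Function.iterate_succ_apply']
      have h1 := hcontr _ ih.2
      have h2 : 0 ≤ (L + 1) / 2 := by linarith
      have h3 : (L + 1) / 2 * ‖g^[k] w - z‖ ≤ (L + 1) / 2 * (((L + 1) / 2) ^ k * ‖w - z‖) :=
        mul_le_mul_of_nonneg_left ih.1 h2
      refine ⟨by rw [pow_succ]; linarith, ?_⟩
      have h4 := ih.2
      rw [mem_ball_iff_norm] at h4 ⊢
      nlinarith [norm_nonneg (g^[k] w - z)]
  -- the critical orbit enters the ball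
  obtain ⟨j, hj⟩ : ∃ j, (fm d c)^[j] 0 ∈ ball z ε := by
    by_contra hcon
    push Not at hcon
    obtain ⟨R, hR⟩ : ∃ R, R = max (‖c‖ + 3) (‖z‖ + ε) := ⟨_, rfl⟩
    have hR1 : ‖c‖ + 3 ≤ R := by rw [hR]; exact le_max_left _ _
    have hR2 : ‖z‖ + ε ≤ R := by rw [hR]; exact le_max_right _ _
    have hR0 : 0 < R := by linarith [norm_nonneg c]
    have key : ∀ k : ℕ, 1 ≤ L ^ k * (2 * R / ε) := by
      intro k
      have hfk : (fm d c)^[N * k] z = z := by
        rw [Function.iterate_mul, ← hgdef]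
        exact Function.iterate_fixed hfix k
      obtain ⟨φ, hφ, hφ0, hφe⟩ := branchU hd hε (N * k) z hfk (fun j _ _ => hcon j)
      have hz : z ∈ ball z ε := mem_ball_self hε
      have hb : MapsTo φ (ball z ε) (closedBall (φ z) (2 * R)) := by
        intro w hw
        have h1 : ‖φ w‖ ≤ R := by
          apply norm_le_iterU hd hR1 (N * k)
          rw [hφe w hw]
          rw [mem_ball_iff_norm] at hw
          have := norm_add_le (w - z) z
          rw [sub_add_cancel] at this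
          linarith
        have h2 : ‖φ z‖ ≤ R := by
          rw [hφ0]
          linarith
        rw [mem_closedBall, dist_eq_norm]
        have := norm_sub_le (φ w) (φ z)
        linarith
      have h1 : ‖deriv φ z‖ ≤ 2 * R / ε :=
        Complex.norm_deriv_le_div_of_mapsTo_ball hφ hb hε
      have h2 : HasDerivAt φ (deriv φ z) z :=
        (hφ.differentiableAt (isOpen_ball.mem_nhds hz)).hasDerivAt
      have h3 : HasDerivAt ((fm d c)^[N * k]) (deriv g z ^ k) z := by
        rw [Function.iterate_mul, ← hgdef]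
        exact HasDerivAt.iterate z (hg z).hasDerivAt hfix k
      have h4 : HasDerivAt (fun w => (fm d c)^[N * k] (φ w)) (deriv g z ^ k * deriv φ z) z := by
        have h5 : HasDerivAt ((fm d c)^[N * k]) (deriv g z ^ k) (φ z) := by rw [hφ0]; exact h3
        exact h5.comp z h2
      have h5 : HasDerivAt (fun w => (fm d c)^[N * k] (φ w)) 1 z := by
        refine (hasDerivAt_id z).congr_of_eventuallyEq ?_
        filter_upwards [isOpen_ball.mem_nhds hz] with w hw using hφe w hw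
      have h6 := h4.unique h5
      have h7 : ‖deriv g z ^ k * deriv φ z‖ = 1 := by rw [h6, norm_one]
      rw [norm_mul, norm_pow, ← hL] at h7
      rw [← h7]
      exact mul_le_mul_of_nonneg_left h1 (by positivity)
    have h1 : Tendsto (fun k : ℕ => L ^ k * (2 * R / ε)) atTop (𝓝 (0 * (2 * R / ε))) :=
      (tendsto_pow_atTop_nhds_zero_of_lt_one hL0 hlt).mul_const _
    rw [zero_mul] at h1
    have h2 := ge_of_tendsto' h1 key
    linarith
  refine ⟨j, ?_⟩
  rw [tendsto_iff_norm_sub_tendsto_zero]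
  have h1 : Tendsto (fun k : ℕ => ((L + 1) / 2) ^ k * ‖(fm d c)^[j] 0 - z‖) atTop
      (𝓝 (0 * ‖(fm d c)^[j] 0 - z‖)) :=
    (tendsto_pow_atTop_nhds_zero_of_lt_one (by linarith) (by linarith)).mul_const _
  rw [zero_mul] at h1
  refine squeeze_zero (fun k => norm_nonneg _) (fun k => ?_) h1
  have h2 := (hiter _ hj k).1
  have e : g^[k] ((fm d c)^[j] 0) = (fm d c)^[j + N * k] 0 := by
    rw [hgdef, ← Function.iterate_mul, ← Function.iterate_add_apply, add_comm]
  rwa [e] at h2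

/-! ### The multiplier along the cycle -/

theorem deriv_iterU (d : ℕ) (c w : ℂ) (k : ℕ) :
    deriv ((fm d c)^[k]) w = ∏ i ∈ Finset.range k, deriv (fm d c) ((fm d c)^[i] w) := by
  induction k with
  | zero => simp
  | succ k ih =>
    rw [Function.iterate_succ', deriv_comp w (fm_diff d c _) ((fm_diff d c).iterate k w), ih,
      Finset.prod_range_succ, mul_comm]

theorem att_next {d : ℕ} {c z : ℂ} {N : ℕ} (h : AttU d c z N) : AttU d c (fm d c z) N := by
  obtain ⟨hN, hfix, hlt⟩ := h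
  refine ⟨hN, ?_, ?_⟩
  · rw [← Function.iterate_succ_apply, Function.iterate_succ_apply', hfix]
  · have h1 : deriv ((fm d c)^[N]) (fm d c z) = deriv ((fm d c)^[N]) z := by
      rw [deriv_iterU, deriv_iterU]
      set F : ℕ → ℂ := fun i => deriv (fm d c) ((fm d c)^[i] z) with hF
      have e1 : ∏ i ∈ Finset.range N, deriv (fm d c) ((fm d c)^[i] (fm d c z)) =
          ∏ i ∈ Finset.range N, F (i + 1) := by
        apply Finset.prod_congr rfl
        intro i _
        show deriv (fm d c) ((fm d c)^[i] (fm d c z)) = deriv (fm d c) ((fm d c)^[i + 1] z)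
        rw [Function.iterate_succ_apply]
      rw [e1]
      have hFN : F N = F 0 := by
        show deriv (fm d c) ((fm d c)^[N] z) = deriv (fm d c) ((fm d c)^[0] z)
        rw [hfix]
        rfl
      have e2 := Finset.prod_range_succ F N
      have e3 := Finset.prod_range_succ' F N
      rw [e2, hFN] at e3
      by_cases hF0 : F 0 = 0
      · have h2 : ∏ i ∈ Finset.range N, F (i + 1) = 0 := by
          apply Finset.prod_eq_zero (i := N - 1) (Finset.mem_range.2 (by omega))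
          have : N - 1 + 1 = N := by omega
          rw [this, hFN, hF0]
        have h3 : ∏ i ∈ Finset.range N, F i = 0 :=
          Finset.prod_eq_zero (i := 0) (Finset.mem_range.2 hN) hF0
        rw [h2, h3]
      · exact (mul_right_cancel₀ hF0 e3).symm
    rw [h1]
    exact hlt

theorem att_iter {d : ℕ} {c z : ℂ} {N : ℕ} (h : AttU d c z N) (i : ℕ) :
    AttU d c ((fm d c)^[i] z) N := by
  induction i with
  | zero => exact h
  | succ i ih =>
    rw [Function.iterate_succ_apply']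
    exact att_next ih

/-- hyperbolic parameters -/
def HypU (d : ℕ) (c : ℂ) : Prop :=
  EscU d c ∨ ∃ (n : ℕ) (z : ℂ), AttU d c z n ∧
    Tendsto (fun k : ℕ => (fm d c)^[n * k] 0) atTop (𝓝 z)

theorem hypU_of_att {d : ℕ} (hd : 2 ≤ d) {c z : ℂ} {N : ℕ} (h : AttU d c z N) : HypU d c := by
  obtain ⟨j, hj⟩ := fatouU hd h
  right
  obtain ⟨i, q, hiq⟩ : ∃ i q, i + j = N * q := by
    refine ⟨N * j - j, j, ?_⟩
    have : j ≤ N * j := Nat.le_mul_of_pos_left _ h.1
    omega
  refine ⟨N, (fm d c)^[i] z, att_iter h i, ?_⟩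
  have h1 : Tendsto (fun k => (fm d c)^[i] ((fm d c)^[j + N * k] 0)) atTop
      (𝓝 ((fm d c)^[i] z)) := (((fm_diff d c).iterate i).continuous.tendsto z).comp hj
  rw [← tendsto_add_atTop_iff_nat q]
  refine h1.congr fun k => ?_
  rw [← Function.iterate_add_apply]
  congr 1
  rw [mul_add, ← hiq]
  ring

/-- **Density of the hyperbolic parameters is Q1.** -/
theorem link {d : ℕ} (hd : 2 ≤ d) :
    (∀ c : ℂ, ∀ ε : ℝ, 0 < ε → ∃ c', ‖c' - c‖ < ε ∧ HypU d c') ↔
      ∀ c : ℂ, ¬ EscU d c → ∀ ε : ℝ, 0 < ε → ∃ c' : ℂ, dist c' c < ε ∧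
        ∃ z : ℂ, ∃ k : ℕ, AttU d c' z k := by
  constructor
  · intro h c hc ε hε
    by_contra hcon
    push Not at hcon
    have hno : ∀ c' ∈ ball c ε, ∀ n, 1 ≤ n → (fm d c')^[n] 0 ≠ 0 := by
      intro c' hc' n hn h0
      exact hcon c' (mem_ball.1 hc') 0 n (att_of_zero hd hn h0)
    obtain ⟨c', h1, h2⟩ := h c (ε / 2) (by positivity)
    have h3 : c' ∈ ball c (ε / 2) := by rw [mem_ball, dist_eq_norm]; exact h1
    rcases h2 with h2 | ⟨n, z, h2, -⟩
    · exact half_disc hd hε hc hno h3 h2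
    · refine hcon c' ?_ z n h2
      rw [dist_eq_norm]
      linarith
  · intro h c ε hε
    by_cases hc : EscU d c
    · exact ⟨c, by simpa using hε, Or.inl hc⟩
    · obtain ⟨c', h1, z, k, h2⟩ := h c hc ε hε
      exact ⟨c', by rw [← dist_eq_norm]; exact h1, hypU_of_att hd h2⟩

end Pool.Agent.Y334.FU
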