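import Mathlib
import Pool.Agent.Y334.FN.Unif
import Pool.Agent.Y334.FN.Pt

/-! Hyperbolic fibered polynomials over minimal bases, with an attracting section `b`: the basin of the
section is closed along the post-critical set. -/

set_option autoImplicit false

open Filter Topology Metric Set Polynomial

namespace Pool.Agent.Y334.FU

open Pool.Agent.Y334.NA Pool.Agent.Y334.FP Pool.Agent.Y334.FN

/-- the points whose orbits come close to the section -/
def Qb {X : Type} (T : X → X) (g : X → ℂ[X]) (b : X → ℂ) (ρ : ℝ) : Set (X × ℂ) :=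
  {p | ∃ k, ‖fib T g k p.1 p.2 - b (T^[k] p.1)‖ < ρ}

/-- points close to the section come closer -/
def Rec {X : Type} (T : X → X) (g : X → ℂ[X]) (b : X → ℂ) (ρ ρ' : ℝ) : Prop :=
  ∀ x z, ‖z - b x‖ < ρ → ∃ k ≥ 1, ‖fib T g k x z - b (T^[k] x)‖ ≤ ρ'

section

variable {X : Type} {T : X → X} {g : X → ℂ[X]} {b : X → ℂ} {ρ ρ' : ℝ}

theorem rec_inf (hρ' : ρ' < ρ) (hrec : Rec T g b ρ ρ') {x : X} {z : ℂ} {k : ℕ}
    (h : ‖fib T g k x z - b (T^[k] x)‖ < ρ) (m : ℕ) :
    ∃ j ≥ k + m + 1, ‖fib T g j x z - b (T^[j] x)‖ ≤ ρ' := by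
  induction m with
  | zero =>
    obtain ⟨i, hi, h1⟩ := hrec _ _ h
    refine ⟨i + k, by omega, ?_⟩
    rw [fib_add, Function.iterate_add_apply]
    exact h1
  | succ m ih =>
    obtain ⟨j, hj, h1⟩ := ih
    obtain ⟨i, hi, h2⟩ := hrec _ _ (h1.trans_lt hρ')
    refine ⟨i + j, by omega, ?_⟩
    rw [fib_add, Function.iterate_add_apply]
    exact h2

theorem Qb_step (hρ' : ρ' < ρ) (hrec : Rec T g b ρ ρ') {x : X} {z : ℂ}
    (h : (x, z) ∈ Qb T g b ρ) : (T x, (g x).eval z) ∈ Qb T g b ρ := by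
  obtain ⟨k, hk⟩ := h
  obtain ⟨j, hj, h1⟩ := rec_inf hρ' hrec hk 0
  obtain ⟨i, rfl⟩ : ∃ i, j = i + 1 := ⟨j - 1, by omega⟩
  refine ⟨i, ?_⟩
  show ‖fib T g i (T x) ((g x).eval z) - b (T^[i] (T x))‖ < ρ
  rw [← fib_succ', ← Function.iterate_succ_apply]
  exact h1.trans_lt hρ'

theorem Qb_iter (hρ' : ρ' < ρ) (hrec : Rec T g b ρ ρ') {x : X} {z : ℂ}
    (h : (x, z) ∈ Qb T g b ρ) (m : ℕ) : (T^[m] x, fib T g m x z) ∈ Qb T g b ρ := by
  induction m with
  | zero => exact h
  | succ m ih =>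
    rw [Function.iterate_succ_apply', fib_succ]
    exact Qb_step hρ' hrec ih

/-- the bounded points of the post-critical closure which never come close to the section -/
def Kb [TopologicalSpace X] (T : X → X) (g : X → ℂ[X]) (b : X → ℂ) (ρ R : ℝ) : Set (X × ℂ) :=
  {p | p ∈ closure (PCp T g) ∧
    ∀ k, ρ ≤ ‖fib T g k p.1 p.2 - b (T^[k] p.1)‖ ∧ ‖fib T g k p.1 p.2‖ ≤ R}

end

/-- **The basin is closed along the post-critical set.** -/
theorem disjoint_closure_b {X : Type} [TopologicalSpace X] [CompactSpace X] [T2Space X] {T : X → X}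
    (hT : Continuous T) (hmin : ∀ x : X, Dense (range fun k : ℕ => T^[k] x)) {g : X → ℂ[X]} {d : ℕ}
    (hg : ∀ k, Continuous fun x => (g x).coeff k) (hd : ∀ x, (g x).natDegree ≤ d) {R : ℝ}
    {b : X → ℂ} (hb : Continuous b) {ρ ρ' : ℝ} (hρ' : ρ' < ρ) (hrec : Rec T g b ρ ρ')
    {r C lam : ℝ} (hr : 0 < r)
    (hl0 : 0 < lam) (hl1 : lam < 1) (hyp : HypP T g r C lam) :
    ∀ q ∈ Kb T g b ρ R, q ∉ closure (Qb T g b ρ) := by
  classical
  intro q₀ hq₀ hq₀c
  have hfc := fib_cont hT hg hd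
  -- the dynamics
  set F : X × ℂ → X × ℂ := fun p => (T p.1, (g p.1).eval p.2) with hF
  have hFc : Continuous F := (hT.comp continuous_fst).prodMk (hfc 1)
  have hPCF : ∀ p ∈ closure (PCp T g), F p ∈ closure (PCp T g) := by
    intro p hp
    have h1 := image_closure_subset_closure_image hFc (mem_image_of_mem F hp)
    refine closure_mono ?_ h1
    rintro _ ⟨_, ⟨y, c, k, hk, hc, rfl⟩, rfl⟩
    refine ⟨y, c, k + 1, by omega, hc, ?_⟩
    rw [Function.iterate_succ_apply', fib_succ]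
  have hKF : ∀ p ∈ Kb T g b ρ R, F p ∈ Kb T g b ρ R := by
    rintro p ⟨h1, h2⟩
    refine ⟨hPCF p h1, fun k => ?_⟩
    have h3 := h2 (k + 1)
    rw [fib_succ', Function.iterate_succ_apply] at h3
    exact h3
  have hKit : ∀ (x : X) (z : ℂ), (x, z) ∈ Kb T g b ρ R → ∀ m : ℕ, (T^[m] x, fib T g m x z) ∈ Kb T g b ρ R := by
    intro x z h m
    induction m with
    | zero => exact h
    | succ m ih =>
      rw [Function.iterate_succ_apply', fib_succ]
      exact hKF _ ih
  have hKcl : IsClosed (Kb T g b ρ R) := by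
    have h1 : Kb T g b ρ R = closure (PCp T g) ∩ ⋂ k : ℕ,
        ({p : X × ℂ | ρ ≤ ‖fib T g k p.1 p.2 - b (T^[k] p.1)‖} ∩
        {p : X × ℂ | ‖fib T g k p.1 p.2‖ ≤ R}) := by
      ext p
      simp only [Kb, mem_setOf_eq, mem_inter_iff, mem_iInter]
    rw [h1]
    exact isClosed_closure.inter (isClosed_iInter fun k =>
      (isClosed_le continuous_const ((hfc k).sub
        (hb.comp ((hT.iterate k).comp continuous_fst))).norm).inter
        (isClosed_le (hfc k).norm continuous_const))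
  -- contraction in the fibres of `K`
  have hcon : ∀ (x : X) (v : ℂ), (x, v) ∈ Kb T g b ρ R → ∀ k, Con T g r C lam x v k := by
    intro x v hxv
    obtain ⟨W, hW, h1⟩ := hyp _ hxv.1
    rcases h1 x (mem_of_mem_nhds hW) with h2 | ⟨k₀, -, h2⟩
    · exact h2
    · exfalso
      obtain ⟨k, hk⟩ := pow_unbounded_of_one_lt R (one_lt_two)
      have h3 := h2 k v (by rw [sub_self, norm_zero]; exact hr)
      have h4 := (hxv.2 (k₀ + k)).2
      linarith
  have hlim : ∀ a : ℝ, Tendsto (fun k : ℕ => C * lam ^ k * a) atTop (𝓝 0) := by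
    intro a
    have h1 := (tendsto_pow_atTop_nhds_zero_of_lt_one hl0.le hl1).const_mul (C)
    have h2 := h1.mul_const a
    simpa using h2
  have hfact : ∀ (x : X) (v z : ℂ), (x, v) ∈ Kb T g b ρ R → ‖z - v‖ < r →
      (x, z) ∉ Qb T g b ρ := by
    rintro x v z hxv hz ⟨k, hk⟩
    have hk' : ‖fib T g k x z - b (T^[k] x)‖ < ρ := hk
    obtain ⟨m, hm⟩ := eventually_atTop.1 ((hlim ‖z - v‖).eventually (gt_mem_nhds
      (show (0 : ℝ) < ρ - ρ' by linarith)))
    obtain ⟨j, hj, h3⟩ := rec_inf hρ' hrec hk' m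
    have h1 := hcon x v hxv j z v hz (by rw [sub_self, norm_zero]; exact hr)
    have h2 := hm j (by omega)
    have h4 := (hxv.2 j).1
    have h5 : ‖fib T g j x v - b (T^[j] x)‖ ≤ ‖fib T g j x z - b (T^[j] x)‖ +
        ‖fib T g j x z - fib T g j x v‖ := by
      calc ‖fib T g j x v - b (T^[j] x)‖ = ‖(fib T g j x z - b (T^[j] x)) -
          (fib T g j x z - fib T g j x v)‖ := by congr 1; ring
        _ ≤ _ := norm_sub_le _ _
    have h4' : ρ ≤ ‖fib T g j x v - b (T^[j] x)‖ := h4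
    linarith
  have hbox : ∀ (x : X) (z : ℂ), (x, z) ∈ Kb T g b ρ R → ‖z‖ ≤ R := fun x z h => (h.2 0).2
  -- separated families
  let Sep : ∀ N : ℕ, Set (X × (Fin N → ℂ)) := fun N =>
    {p | (∀ j, (p.1, p.2 j) ∈ Kb T g b ρ R) ∧ ∀ i j, i ≠ j → ∀ k : ℕ,
      r ≤ ‖fib T g k p.1 (p.2 i) - fib T g k p.1 (p.2 j)‖}
  have hcoord : ∀ (N : ℕ) (j : Fin N) (k : ℕ),
      Continuous fun p : X × (Fin N → ℂ) => fib T g k p.1 (p.2 j) := fun N j k =>
    (hfc k).comp (continuous_fst.prodMk ((continuous_apply j).comp continuous_snd))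
  have hSepcl : ∀ N, IsClosed (Sep N) := by
    intro N
    have h1 : Sep N = (⋂ j, (fun p : X × (Fin N → ℂ) => (p.1, p.2 j)) ⁻¹' Kb T g b ρ R) ∩
        ⋂ i, ⋂ j, ⋂ (_ : i ≠ j), ⋂ k : ℕ, {p : X × (Fin N → ℂ) |
          r ≤ ‖fib T g k p.1 (p.2 i) - fib T g k p.1 (p.2 j)‖} := by
      ext p
      simp only [Sep, mem_setOf_eq, mem_inter_iff, mem_iInter, mem_preimage]
    rw [h1]
    refine (isClosed_iInter fun j => hKcl.preimage (continuous_fst.prodMk
      ((continuous_apply j).comp continuous_snd))).inter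
      (isClosed_iInter fun i => isClosed_iInter fun j => isClosed_iInter fun _ =>
        isClosed_iInter fun k => isClosed_le continuous_const
          ((hcoord N i k).sub (hcoord N j k)).norm)
  have hSepc : ∀ N, IsCompact (Sep N) := by
    intro N
    have h1 : IsCompact ((univ : Set X) ×ˢ (closedBall (0 : Fin N → ℂ) (max R 0))) :=
      isCompact_univ.prod (isCompact_closedBall _ _)
    apply h1.of_isClosed_subset (hSepcl N)
    rintro ⟨x, Z⟩ ⟨h2, -⟩
    refine ⟨mem_univ _, ?_⟩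
    rw [mem_closedBall_zero_iff, pi_norm_le_iff_of_nonneg (le_max_right _ _)]
    exact fun j => (hbox x _ (h2 j)).trans (le_max_left _ _)
  let E : ℕ → Set X := fun N => Prod.fst '' Sep N
  have hEcl : ∀ N, IsClosed (E N) := fun N => ((hSepc N).image continuous_fst).isClosed
  have hEinv : ∀ N, ∀ x ∈ E N, T x ∈ E N := by
    rintro N _ ⟨⟨x, Z⟩, ⟨h1, h2⟩, rfl⟩
    refine ⟨(T x, fun j => (g x).eval (Z j)), ⟨fun j => hKF _ (h1 j), fun i j hij k => ?_⟩, rfl⟩
    have h3 := h2 i j hij (k + 1)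
    rw [fib_succ', fib_succ'] at h3
    exact h3
  have hEuniv : ∀ N, (E N).Nonempty → E N = univ := by
    rintro N ⟨x, hx⟩
    have h1 : ∀ k : ℕ, T^[k] x ∈ E N := by
      intro k
      induction k with
      | zero => exact hx
      | succ k ih =>
        rw [Function.iterate_succ_apply']
        exact hEinv N _ ih
    have h2 : closure (range fun k : ℕ => T^[k] x) ⊆ E N :=
      (hEcl N).closure_subset_iff.2 (by rintro _ ⟨k, rfl⟩; exact h1 k)
    rw [(hmin x).closure_eq] at h2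
    exact univ_subset_iff.1 h2
  -- a bound for the size of separated families
  obtain ⟨tc, -, htf, htc⟩ := Metric.finite_approx_of_totallyBounded
    (isCompact_closedBall (0 : ℂ) R).totallyBounded (r / 2) (by positivity)
  have hEbd : ∀ N, (E N).Nonempty → N ≤ htf.toFinset.card := by
    rintro N ⟨_, ⟨⟨x, Z⟩, ⟨h1, h2⟩, rfl⟩⟩
    have h3 : ∀ j : Fin N, ∃ c ∈ htf.toFinset, dist (Z j) c < r / 2 := by
      intro j
      have h4 : Z j ∈ closedBall (0 : ℂ) R := by
        rw [mem_closedBall_zero_iff]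
        exact hbox x _ (h1 j)
      obtain ⟨c, hc, h5⟩ := mem_iUnion₂.1 (htc h4)
      exact ⟨c, htf.mem_toFinset.2 hc, h5⟩
    choose c hc hcd using h3
    have hinj : Function.Injective c := by
      intro i j hij
      by_contra hne
      have h4 : r ≤ ‖Z i - Z j‖ := h2 i j hne 0
      rw [← dist_eq_norm] at h4
      have h5 := dist_triangle_right (Z i) (Z j) (c i)
      have h6 := hcd i
      have h7 := hcd j
      rw [← hij] at h7
      linarith
    calc N = (Finset.univ : Finset (Fin N)).card := by simp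
      _ = (Finset.univ.image c).card := (Finset.card_image_of_injective _ hinj).symm
      _ ≤ htf.toFinset.card := Finset.card_le_card fun y hy => by
          obtain ⟨j, -, rfl⟩ := Finset.mem_image.1 hy
          exact hc j
  obtain ⟨N, hN1, hN2⟩ : ∃ N, (E N).Nonempty ∧ ¬ (E (N + 1)).Nonempty := by
    by_contra hcon'
    push Not at hcon'
    have h1 : ∀ N, (E N).Nonempty := by
      intro N
      induction N with
      | zero => exact ⟨q₀.1, ⟨(q₀.1, fun j => Fin.elim0 j), ⟨fun j => Fin.elim0 j,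
          fun i => Fin.elim0 i⟩, rfl⟩⟩
      | succ N ih => exact hcon' N ih
    have := hEbd _ (h1 (htf.toFinset.card + 1))
    omega
  have hEN := hEuniv N hN1
  -- the closed set of triples
  set Tr : Set ((X × ℂ) × (Fin N → ℂ)) := {p | (p.1.1, p.2) ∈ Sep N ∧ ‖p.1.2‖ ≤ R + 1 ∧
    ∀ (k : ℕ) (j : Fin N), r ≤ ‖fib T g k p.1.1 p.1.2 - fib T g k p.1.1 (p.2 j)‖} with hTr
  have hTrcl : IsClosed Tr := by
    have h1 : Tr = (fun p : (X × ℂ) × (Fin N → ℂ) => (p.1.1, p.2)) ⁻¹' Sep N ∩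
        ({p : (X × ℂ) × (Fin N → ℂ) | ‖p.1.2‖ ≤ R + 1} ∩
        ⋂ k : ℕ, ⋂ j : Fin N, {p : (X × ℂ) × (Fin N → ℂ) |
          r ≤ ‖fib T g k p.1.1 p.1.2 - fib T g k p.1.1 (p.2 j)‖}) := by
      ext p
      simp only [hTr, mem_setOf_eq, mem_inter_iff, mem_iInter, mem_preimage]
    rw [h1]
    have hc1 : Continuous fun p : (X × ℂ) × (Fin N → ℂ) => (p.1.1, p.2) :=
      (continuous_fst.comp continuous_fst).prodMk continuous_snd
    refine ((hSepcl N).preimage hc1).inter ((isClosed_le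
      ((continuous_snd.comp continuous_fst).norm) continuous_const).inter
      (isClosed_iInter fun k => isClosed_iInter fun j => isClosed_le continuous_const ?_))
    exact (((hfc k).comp continuous_fst).sub ((hcoord N j k).comp hc1)).norm
  have hTrc : IsCompact Tr := by
    have h1 : IsCompact (((univ : Set X) ×ˢ (closedBall (0 : ℂ) (R + 1))) ×ˢ
        (closedBall (0 : Fin N → ℂ) (max R 0))) :=
      (isCompact_univ.prod (isCompact_closedBall _ _)).prod (isCompact_closedBall _ _)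
    apply h1.of_isClosed_subset hTrcl
    rintro ⟨⟨x, v⟩, Z⟩ ⟨⟨h2, -⟩, h3, -⟩
    refine ⟨⟨mem_univ _, ?_⟩, ?_⟩
    · rw [mem_closedBall_zero_iff]; exact h3
    · rw [mem_closedBall_zero_iff, pi_norm_le_iff_of_nonneg (le_max_right _ _)]
      exact fun j => (hbox x _ (h2 j)).trans (le_max_left _ _)
  have himg : IsClosed (Prod.fst '' Tr) := (hTrc.image continuous_fst).isClosed
  have hQsub : Qb T g b ρ ∩ {p | ‖p.2‖ < R + 1} ⊆ Prod.fst '' Tr := by
    rintro ⟨x, v⟩ ⟨hxv, hv⟩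
    have hxN : x ∈ E N := by rw [hEN]; exact mem_univ _
    obtain ⟨⟨x', Z⟩, hZ, hx'⟩ := hxN
    have hx'' : x' = x := hx'
    subst hx''
    refine ⟨((x', v), Z), ⟨hZ, le_of_lt hv, fun k j => ?_⟩, rfl⟩
    by_contra hcon'
    push Not at hcon'
    exact hfact _ _ _ (hKit x' (Z j) (hZ.1 j) k) hcon' (Qb_iter hρ' hrec hxv k)
  have hq₀' : q₀ ∈ closure (Qb T g b ρ ∩ {p | ‖p.2‖ < R + 1}) := by
    have ho : IsOpen {p : X × ℂ | ‖p.2‖ < R + 1} :=
      isOpen_lt continuous_snd.norm continuous_const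
    have hm : q₀ ∈ {p : X × ℂ | ‖p.2‖ < R + 1} := by
      show ‖q₀.2‖ < R + 1
      have := hbox q₀.1 q₀.2 hq₀
      linarith
    rw [mem_closure_iff_nhds] at hq₀c ⊢
    intro V hV
    obtain ⟨p, hp1, hp2⟩ := hq₀c (V ∩ {p | ‖p.2‖ < R + 1}) (inter_mem hV (ho.mem_nhds hm))
    exact ⟨p, hp1.1, hp2, hp1.2⟩
  obtain ⟨⟨q₁, Z⟩, ⟨hZ1, -, hZ3⟩, hq₁⟩ := (himg.closure_subset_iff.2 hQsub) hq₀'
  have hq₁' : q₁ = q₀ := hq₁
  subst hq₁'
  apply hN2
  refine ⟨q₁.1, ⟨(q₁.1, Fin.cons q₁.2 Z), ⟨fun j => ?_, fun i j hij k => ?_⟩, rfl⟩⟩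
  · refine Fin.cases ?_ (fun j => ?_) j
    · simp only [Fin.cons_zero]
      exact hq₀
    · simp only [Fin.cons_succ]
      exact hZ1.1 j
  · revert hij
    refine Fin.cases ?_ (fun i => ?_) i
    · refine Fin.cases ?_ (fun j => ?_) j
      · intro h; exact absurd rfl h
      · intro _
        simp only [Fin.cons_zero, Fin.cons_succ]
        exact hZ3 k j
    · refine Fin.cases ?_ (fun j => ?_) j
      · intro _
        simp only [Fin.cons_zero, Fin.cons_succ]
        rw [norm_sub_rev]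
        exact hZ3 k i
      · intro hij
        simp only [Fin.cons_succ]
        exact hZ1.2 i j (fun h => hij (by rw [h])) k

end Pool.Agent.Y334.FU
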