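import Mathlib
import Pool.Agent.Y334.FU.Inv

/-! Unicritical fibered polynomials `(x, z) ↦ (T x, z ^ d + c x)`. -/

set_option autoImplicit false

open Filter Topology Metric Set Polynomial

namespace Pool.Agent.Y334.FU

open Pool.Agent.Y334.NA Pool.Agent.Y334.FP Pool.Agent.Y334.FN

/-- the family `z ^ d + c x` -/
noncomputable def uni {B : Type} (d : ℕ) (c : B → ℂ) : B → ℂ[X] := fun x => X ^ d + C (c x)

section

variable {B : Type} {d : ℕ} {c : B → ℂ}

theorem uni_eval (x : B) (z : ℂ) : (uni d c x).eval z = z ^ d + c x := by simp [uni]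

theorem uni_deg (hd : 1 ≤ d) (x : B) : (uni d c x).natDegree = d := by
  unfold uni
  rw [natDegree_add_C, natDegree_X_pow]

theorem uni_coeff (x : B) (j : ℕ) :
    (uni d c x).coeff j = (if j = d then 1 else 0) + if j = 0 then c x else 0 := by
  unfold uni
  rw [coeff_add, coeff_X_pow, coeff_C]

theorem uni_cont [TopologicalSpace B] (hc : Continuous c) (j : ℕ) :
    Continuous fun x => (uni d c x).coeff j := by
  simp only [uni_coeff]
  by_cases hj : j = 0
  · simp only [hj, if_true]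
    exact continuous_const.add hc
  · simp only [hj, if_false, add_zero]
    exact continuous_const

theorem uni_deriv (x : B) (z : ℂ) : (derivative (uni d c x)).eval z = d * z ^ (d - 1) := by
  have h5 : derivative (uni d c x) = C (d : ℂ) * X ^ (d - 1) := by
    simp [uni, derivative_X_pow]
  rw [h5]
  simp

theorem uni_crit (hd : 2 ≤ d) (x : B) (z : ℂ) : (derivative (uni d c x)).eval z = 0 ↔ z = 0 := by
  rw [uni_deriv, mul_eq_zero, Nat.cast_eq_zero, pow_eq_zero_iff (by omega)]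
  constructor
  · rintro (h | h)
    · omega
    · exact h
  · exact Or.inr

theorem uni_bd (hd : 2 ≤ d) {A : ℝ} (hA : 1 ≤ A) {x : B} (hx : ‖c x‖ ≤ A) : Bd d A (uni d c x) := by
  have hdeg := uni_deg (c := c) (by omega : 1 ≤ d) x
  refine ⟨by rw [hdeg]; exact hd, hdeg.le, fun j => ?_, ?_⟩
  · rw [uni_coeff]
    by_cases hj : j = d
    · have hj0 : j ≠ 0 := by omega
      rw [if_pos hj, if_neg hj0, add_zero, norm_one]
      exact hA
    · rw [if_neg hj, zero_add]
      split_ifs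
      · exact hx
      · rw [norm_zero]; linarith
  · have h1 : (uni d c x).leadingCoeff = 1 := by
      rw [leadingCoeff, hdeg, uni_coeff, if_pos rfl, if_neg (by omega : d ≠ 0), add_zero]
    rw [h1, norm_one, div_le_one (by linarith)]
    exact hA

end

/-- the base points whose critical point lies in the basin of the section -/
def Gu {X : Type} (T : X → X) (g : X → ℂ[X]) (b : X → ℂ) (ρ : ℝ) : Set X :=
  {y | (y, (0 : ℂ)) ∈ Qb T g b ρ}

/-- **The good base points form a clopen set.** -/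
theorem goodU {X : Type} [TopologicalSpace X] [CompactSpace X] [T2Space X] {T : X → X}
    (hT : Continuous T) (hmin : ∀ x : X, Dense (range fun k : ℕ => T^[k] x)) {g : X → ℂ[X]}
    {d : ℕ} (hg : ∀ k, Continuous fun x => (g x).coeff k) (hd : ∀ x, (g x).natDegree ≤ d)
    (hcr : ∀ x, (derivative (g x)).eval 0 = 0) {R : ℝ} (hR : 1 ≤ R)
    (hesc : ∀ x z, R ≤ ‖z‖ → 2 * ‖z‖ ≤ ‖(g x).eval z‖) {b : X → ℂ} (hb : Continuous b)
    {ρ ρ' : ℝ} (hρ' : ρ' < ρ) (hbR : ∀ x, ‖b x‖ + ρ ≤ R) (hrec : Rec T g b ρ ρ') {r C lam : ℝ}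
    (hr : 0 < r) (hl0 : 0 < lam) (hl1 : lam < 1) (hyp : HypP T g r C lam) :
    IsClopen (Gu T g b ρ) := by
  have hfc := fib_cont hT hg hd
  have hc0 : Continuous fun y : X => (y, (0 : ℂ)) := continuous_id.prodMk continuous_const
  constructor
  · rw [← closure_subset_iff_isClosed]
    intro y hy
    by_contra hcon
    have hcon' : (y, (0 : ℂ)) ∉ Qb T g b ρ := hcon
    have hcl : (y, (0 : ℂ)) ∈ closure (Qb T g b ρ) := by
      have h1 := image_closure_subset_closure_image hc0 (mem_image_of_mem _ hy)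
      refine closure_mono ?_ h1
      rintro _ ⟨y', hy', rfl⟩
      exact hy'
    by_cases hesc' : ∃ k, R < ‖fib T g k y 0‖
    · obtain ⟨k, hk⟩ := hesc'
      have ho : IsOpen {p : X × ℂ | R < ‖fib T g k p.1 p.2‖} :=
        isOpen_lt continuous_const (hfc k).norm
      obtain ⟨p, hp1, j, hj⟩ := mem_closure_iff_nhds.1 hcl _ (ho.mem_nhds hk)
      have hp1' : R < ‖fib T g k p.1 p.2‖ := hp1
      obtain ⟨i, hi, h1⟩ := rec_inf hρ' hrec hj k
      have h2 := fib_big (T := T) hR hesc (x := T^[k] p.1) hp1'.le (i - k)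
      rw [← fib_add] at h2
      have e : i - k + k = i := by omega
      rw [e] at h2
      have h3 : (1 : ℝ) ≤ 2 ^ (i - k) := one_le_pow₀ (by norm_num)
      have h4 := hbR (T^[i] p.1)
      have h5 : ‖fib T g i p.1 p.2‖ ≤ ‖fib T g i p.1 p.2 - b (T^[i] p.1)‖ + ‖b (T^[i] p.1)‖ := by
        calc ‖fib T g i p.1 p.2‖ = ‖(fib T g i p.1 p.2 - b (T^[i] p.1)) + b (T^[i] p.1)‖ := by
              congr 1; ring
          _ ≤ _ := norm_add_le _ _
      nlinarith
    · push Not at hesc'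
      have hK : (T y, (g y).eval 0) ∈ Kb T g b ρ R := by
        refine ⟨subset_closure ⟨y, 0, 1, le_rfl, hcr y, rfl⟩, fun k => ?_⟩
        show ρ ≤ ‖fib T g k (T y) ((g y).eval 0) - b (T^[k] (T y))‖ ∧
          ‖fib T g k (T y) ((g y).eval 0)‖ ≤ R
        rw [← fib_succ', ← Function.iterate_succ_apply]
        refine ⟨?_, hesc' _⟩
        by_contra h2
        push Not at h2
        exact hcon' ⟨k + 1, h2⟩
      refine disjoint_closure_b hT hmin hg hd hb hρ' hrec hr hl0 hl1 hyp _ hK ?_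
      have hF : Continuous fun p : X × ℂ => (T p.1, (g p.1).eval p.2) :=
        (hT.comp continuous_fst).prodMk (eval_cont hg hd continuous_fst continuous_snd)
      have h1 := image_closure_subset_closure_image hF (mem_image_of_mem _ hcl)
      refine closure_mono ?_ h1
      rintro _ ⟨⟨x, z⟩, hxz, rfl⟩
      exact Qb_step hρ' hrec hxz
  · have h1 : Qb T g b ρ = ⋃ k : ℕ, {p : X × ℂ | ‖fib T g k p.1 p.2 - b (T^[k] p.1)‖ < ρ} := by
      ext p
      simp only [Qb, mem_setOf_eq, mem_iUnion]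
    have h2 : IsOpen (Qb T g b ρ) := by
      rw [h1]
      exact isOpen_iUnion fun k => isOpen_lt ((hfc k).sub
        (hb.comp ((hT.iterate k).comp continuous_fst))).norm continuous_const
    exact h2.preimage hc0

theorem goodU_on {X : Type} [TopologicalSpace X] [CompactSpace X] [T2Space X] {T : X → X}
    (hT : Continuous T) {Y : Set X} (hYc : IsClosed Y) (hY : MapsTo T Y Y)
    (hmin : ∀ x ∈ Y, Y ⊆ closure (range fun k : ℕ => T^[k] x)) {g : X → ℂ[X]}
    {d : ℕ} (hg : ∀ k, Continuous fun x => (g x).coeff k) (hd : ∀ x, (g x).natDegree ≤ d)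
    (hcr : ∀ x, (derivative (g x)).eval 0 = 0) {R : ℝ} (hR : 1 ≤ R)
    (hesc : ∀ x z, R ≤ ‖z‖ → 2 * ‖z‖ ≤ ‖(g x).eval z‖) {b : X → ℂ} (hb : Continuous b)
    {ρ ρ' : ℝ} (hρ' : ρ' < ρ) (hbR : ∀ x, ‖b x‖ + ρ ≤ R) (hrec : Rec T g b ρ ρ') {r C lam : ℝ}
    (hr : 0 < r) (hl0 : 0 < lam) (hl1 : lam < 1) (hyp : HypP T g r C lam) {s : Set X} (hsY : s ⊆ Y)
    (hs : IsPreconnected s) {x₀ x₁ : X} (hx₀ : x₀ ∈ s) (hx₀G : x₀ ∈ Gu T g b ρ) (hx₁ : x₁ ∈ s) :
    x₁ ∈ Gu T g b ρ := by
  have hYcpt : CompactSpace Y := isCompact_iff_compactSpace.1 hYc.isCompact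
  have hsc : ∀ y : Y, ((hY.restrict T Y Y y : Y) : X) = T y := fun y => rfl
  have hfibY : ∀ (k : ℕ) (y : Y) (z : ℂ),
      fib (hY.restrict T Y Y) (fun y : Y => g y) k y z = fib T g k y z := fib_comap hsc g
  have hitY := semi_iter (φ := fun y : Y => (y : X)) hsc
  have hGd : ∀ y : Y, y ∈ Gu (hY.restrict T Y Y) (fun y : Y => g y) (fun y : Y => b y) ρ ↔
      (y : X) ∈ Gu T g b ρ := by
    intro y
    constructor
    · rintro ⟨k, hk⟩
      refine ⟨k, ?_⟩
      simp only [hfibY, hitY] at hk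
      exact hk
    · rintro ⟨k, hk⟩
      refine ⟨k, ?_⟩
      simp only [hfibY, hitY]
      exact hk
  have hrecY : Rec (hY.restrict T Y Y) (fun y : Y => g y) (fun y : Y => b y) ρ ρ' := by
    intro y z hz
    obtain ⟨k, hk, h1⟩ := hrec y z hz
    refine ⟨k, hk, ?_⟩
    simp only [hfibY, hitY]
    exact h1
  have hclopen : IsClopen (Gu (hY.restrict T Y Y) (fun y : Y => g y) (fun y : Y => b y) ρ) :=
    goodU (hT.restrict hY) (dense_restrict hY hmin)
      (fun k => (hg k).comp continuous_subtype_val) (fun y => hd y) (fun y => hcr y) hR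
      (fun y => hesc y) (hb.comp continuous_subtype_val) hρ' (fun y => hbR y) hrecY hr hl0 hl1
      (hypP_restrict hY hyp)
  have hs' : IsPreconnected (Subtype.val ⁻¹' s : Set Y) := by
    rw [← Topology.IsInducing.subtypeVal.isPreconnected_image,
      Subtype.image_preimage_coe, inter_eq_right.2 hsY]
    exact hs
  have h9 := hs'.subset_isClopen hclopen
    ⟨⟨x₀, hsY hx₀⟩, hx₀, (hGd ⟨x₀, hsY hx₀⟩).2 hx₀G⟩
    (show (⟨x₁, hsY hx₁⟩ : Y) ∈ Subtype.val ⁻¹' s from hx₁)
  exact (hGd ⟨x₁, hsY hx₁⟩).1 h9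

/-- a neighbourhood with long return times -/
theorem exists_nbhd {X : Type} [TopologicalSpace X] [T2Space X] {T : X → X} (hT : Continuous T)
    {x₀ x₁ : X} (hne : x₀ ≠ x₁) (m : ℕ) (hap : ∀ k, 1 ≤ k → T^[k] x₁ ≠ x₁) :
    ∃ V : Set X, IsOpen V ∧ x₁ ∈ V ∧ x₀ ∉ V ∧ ∀ x ∈ V, ∀ k, 1 ≤ k → k ≤ m → T^[k] x ∉ V := by
  induction m with
  | zero =>
    refine ⟨{x₀}ᶜ, isOpen_compl_singleton, fun h => hne (mem_singleton_iff.1 h).symm,
      fun h => h (mem_singleton _), fun x _ k h1 h2 => by omega⟩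
  | succ m ih =>
    obtain ⟨V, hV, h1, h2, h3⟩ := ih
    obtain ⟨U, U', hU, hU', h4, h5, h6⟩ := t2_separation (hap (m + 1) (by omega))
    refine ⟨V ∩ (U' ∩ (T^[m + 1]) ⁻¹' U), hV.inter (hU'.inter (hU.preimage (hT.iterate _))),
      ⟨h1, h5, h4⟩, fun h => h2 h.1, ?_⟩
    rintro x ⟨hx1, hx2, hx3⟩ k hk1 hk2 ⟨hy1, hy2, -⟩
    rcases Nat.lt_or_ge m k with hk | hk
    · have e : k = m + 1 := by omega
      subst e
      exact Set.disjoint_left.1 h6 hx3 hy2
    · exact h3 x hx1 k hk1 hk hy1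

/-- **The robust example in the unicritical family.** -/
theorem robustU {X : Type} [TopologicalSpace X] [CompactSpace X] [T2Space X] {T : X → X}
    (hT : Continuous T) {Y : Set X} (hYc : IsClosed Y) (hY : MapsTo T Y Y)
    (hmin : ∀ x ∈ Y, Y ⊆ closure (range fun k : ℕ => T^[k] x)) (hinf : Y.Infinite)
    (htd : ¬ IsTotallyDisconnected Y) {d : ℕ} (hd : 2 ≤ d) :
    ∃ (c : X → ℂ) (δ : ℝ), 0 < δ ∧ Continuous c ∧ ∀ c' : X → ℂ, Continuous c' →
      (∀ x, ‖c' x - c x‖ < δ) →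
      ∀ r C lam : ℝ, 0 < r → 0 < lam → lam < 1 → ¬ HypP T (uni d c') r C lam := by
  -- two points of a connected set
  obtain ⟨s, hsY, hs, x₀, hx₀, x₁, hx₁, hne⟩ : ∃ s ⊆ Y, IsPreconnected s ∧ ∃ x₀ ∈ s, ∃ x₁ ∈ s,
      x₀ ≠ x₁ := by
    by_contra hcon
    push Not at hcon
    exact htd fun t hty ht x hx y hy => hcon t hty ht x hx y hy
  have hap := fun k hk => aper_on hmin hinf (hsY hx₁) k hk
  -- constants
  have hd1 : (2 : ℝ) ≤ d := by exact_mod_cast hd
  set L : ℝ := d * 2 ^ d with hL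
  have hL8 : 8 ≤ L := by
    have h1 : (4 : ℝ) ≤ 2 ^ d := by
      calc (4 : ℝ) = 2 ^ 2 := by norm_num
        _ ≤ 2 ^ d := pow_le_pow_right₀ (by norm_num) hd
    rw [hL]
    nlinarith
  set ρ : ℝ := 1 / (8 * L) with hρ
  have hρ0 : 0 < ρ := by positivity
  have hLρ : L * ρ = 1 / 8 := by rw [hρ]; field_simp
  have hρ64 : ρ ≤ 1 / 64 := by
    rw [hρ]
    apply one_div_le_one_div_of_le <;> linarith
  set δ : ℝ := ρ / 8 with hδ
  have hδ0 : 0 < δ := by positivity
  set A : ℝ := 3 / 2 + (3 / 2) ^ d + 2 with hAdef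
  have hA32 : (0 : ℝ) ≤ (3 / 2) ^ d := by positivity
  have hA : 1 ≤ A := by linarith
  obtain ⟨R₀, Λ, hR₀, -, hdat⟩ := dat_of_bounded d hA one_pos le_rfl
  set R : ℝ := R₀ + 2 with hR
  have hR1 : 1 ≤ R := by linarith
  obtain ⟨m₁, hm₁⟩ := pow_unbounded_of_one_lt R (show (1 : ℝ) < 3 / 2 by norm_num)
  obtain ⟨m₂, hm₂⟩ := exists_pow_lt_of_lt_one (show (0 : ℝ) < ρ / 4 by positivity)
    (show (1 / 4 : ℝ) < 1 by norm_num)
  set m : ℕ := m₁ + m₂ + 1 with hm
  have hmR : R ≤ 2 * (3 / 2) ^ (m₁ + m₂) := by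
    have h1 : (3 / 2 : ℝ) ^ m₁ ≤ (3 / 2) ^ (m₁ + m₂) :=
      pow_le_pow_right₀ (by norm_num) (by omega)
    have h2 : (0 : ℝ) ≤ (3 / 2) ^ (m₁ + m₂) := by positivity
    linarith
  have hmρ : (1 / 4 : ℝ) ^ m ≤ ρ / 4 :=
    (pow_le_pow_of_le_one (by norm_num) (by norm_num) (by omega)).trans hm₂.le
  -- the base function
  obtain ⟨V, hV, hx₁V, hx₀V, hret⟩ := exists_nbhd hT hne m hap
  obtain ⟨θ, hθ0, hθ1, hθ⟩ := exists_continuous_zero_one_of_isClosed hV.isClosed_compl
    (isClosed_singleton (x := x₁)) (Set.disjoint_singleton_right.2 fun h => h hx₁V)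
  set b : X → ℂ := fun x => ((3 / 2 * θ x : ℝ) : ℂ) with hb
  have hbc : Continuous b := Complex.continuous_ofReal.comp (continuous_const.mul θ.continuous)
  have hb0 : ∀ x, x ∉ V → b x = 0 := by
    intro x hx
    have h1 : θ x = 0 := hθ0 hx
    show ((3 / 2 * θ x : ℝ) : ℂ) = 0
    rw [h1]
    simp
  have hbn : ∀ x, ‖b x‖ ≤ 3 / 2 := by
    intro x
    show ‖((3 / 2 * θ x : ℝ) : ℂ)‖ ≤ 3 / 2
    rw [Complex.norm_real, Real.norm_eq_abs, abs_of_nonneg (by have := (hθ x).1; positivity)]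
    have := (hθ x).2
    linarith
  have hb1 : ‖b x₁‖ = 3 / 2 := by
    have h1 : θ x₁ = 1 := hθ1 (mem_singleton _)
    show ‖((3 / 2 * θ x₁ : ℝ) : ℂ)‖ = 3 / 2
    rw [h1, Complex.norm_real, Real.norm_eq_abs, mul_one, abs_of_nonneg (by norm_num)]
  set c : X → ℂ := fun x => b (T x) - b x ^ d with hc
  have hcc : Continuous c := (hbc.comp hT).sub (hbc.pow d)
  refine ⟨c, δ, hδ0, hcc, ?_⟩
  intro c' hc' hclo r C lam hr hl0 hl1 hyp
  set g : X → ℂ[X] := uni d c' with hg
  have hcn : ∀ x, ‖c x‖ ≤ 3 / 2 + (3 / 2) ^ d := by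
    intro x
    calc ‖b (T x) - b x ^ d‖ ≤ ‖b (T x)‖ + ‖b x ^ d‖ := norm_sub_le _ _
      _ ≤ 3 / 2 + (3 / 2) ^ d := by
          rw [norm_pow]
          have h1 := hbn (T x)
          have h2 := hbn x
          gcongr
  have hc'n : ∀ x, ‖c' x‖ ≤ A := by
    intro x
    have h1 := hcn x
    have h2 := (hclo x).le
    calc ‖c' x‖ = ‖(c' x - c x) + c x‖ := by congr 1; ring
      _ ≤ _ := norm_add_le _ _
      _ ≤ A := by linarith
  have hesc : ∀ x z, R ≤ ‖z‖ → 2 * ‖z‖ ≤ ‖(g x).eval z‖ := by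
    intro x z hz
    have h1 := (hdat (fun _ => g x) (fun _ => uni_bd hd hA (hc'n x))).esc 0 z 0 (by linarith)
      (by simp)
    simpa using h1
  have heval : ∀ x z, (g x).eval z = z ^ d + c' x := fun x z => uni_eval x z
  -- steps where the section vanishes
  have hstep0 : ∀ x z, x ∉ V → T x ∉ V → ‖(g x).eval z - z ^ d‖ ≤ δ := by
    intro x z h1 h2
    rw [heval]
    have h3 : c x = 0 := by
      show b (T x) - b x ^ d = 0
      rw [hb0 x h1, hb0 _ h2, zero_pow (by omega), sub_zero]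
    have h4 := (hclo x).le
    rw [h3, sub_zero] at h4
    have h5 : z ^ d + c' x - z ^ d = c' x := by ring
    rw [h5]
    exact h4
  -- recurrence
  have hrec : Rec T g b ρ (ρ / 2) := by
    intro x z hz
    by_cases hxV : x ∈ V
    · refine ⟨m, by omega, ?_⟩
      have hTk : ∀ k, 1 ≤ k → k ≤ m → T^[k] x ∉ V := hret x hxV
      have key : ∀ k, k + 1 ≤ m → ‖fib T g (k + 1) x z‖ ≤ (1 / 4) ^ (k + 1) + 2 * δ ∧
          ‖fib T g (k + 1) x z‖ ≤ 1 / 4 := by
        intro k
        induction k with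
        | zero =>
          intro _
          have h1 : ‖(g x).eval z‖ ≤ 1 / 4 := by
            rw [heval]
            have hTx : T x ∉ V := hTk 1 le_rfl (by omega)
            have h2 : c x = - b x ^ d := by
              show b (T x) - b x ^ d = _
              rw [hb0 _ hTx, zero_sub]
            have h3 : z ^ d + c' x = (z ^ d - b x ^ d) + (c' x - c x) := by rw [h2]; ring
            rw [h3]
            have hzn : ‖z‖ ≤ 2 := by
              have h4 := hbn x
              calc ‖z‖ = ‖(z - b x) + b x‖ := by congr 1; ring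
                _ ≤ _ := norm_add_le _ _
                _ ≤ 2 := by linarith
            have h4 := pow_lip (show (1 : ℝ) ≤ 2 by norm_num) hzn ((hbn x).trans (by norm_num)) d
            have h5 : (d : ℝ) * 2 ^ d * ‖z - b x‖ ≤ 1 / 8 := by
              rw [← hLρ]
              exact mul_le_mul_of_nonneg_left hz.le (by positivity)
            have h6 := (hclo x).le
            calc ‖(z ^ d - b x ^ d) + (c' x - c x)‖ ≤ ‖z ^ d - b x ^ d‖ + ‖c' x - c x‖ :=
                  norm_add_le _ _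
              _ ≤ 1 / 4 := by linarith
          refine ⟨?_, h1⟩
          show ‖(g x).eval z‖ ≤ _
          have h7 : (1 / 4 : ℝ) ^ (0 + 1) = 1 / 4 := by norm_num
          rw [h7]
          linarith
        | succ k ih =>
          intro hk
          obtain ⟨i1, i2⟩ := ih (by omega)
          have hTk2 := hTk (k + 1 + 1) (by omega) hk
          rw [Function.iterate_succ_apply'] at hTk2
          have h1 := hstep0 (T^[k + 1] x) (fib T g (k + 1) x z) (hTk _ (by omega) (by omega)) hTk2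
          rw [← fib_succ] at h1
          set u := ‖fib T g (k + 1) x z‖ with hu
          have hu0 : 0 ≤ u := norm_nonneg _
          have h2 : ‖fib T g (k + 1) x z ^ d‖ ≤ 1 / 4 * u := by
            rw [norm_pow, ← hu]
            calc u ^ d ≤ u ^ 2 := pow_le_pow_of_le_one hu0 (by linarith) hd
              _ = u * u := by ring
              _ ≤ 1 / 4 * u := by nlinarith
          have h3 : ‖fib T g (k + 1 + 1) x z‖ ≤ 1 / 4 * u + δ := by
            calc ‖fib T g (k + 1 + 1) x z‖ = ‖(fib T g (k + 1 + 1) x z -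
                  fib T g (k + 1) x z ^ d) + fib T g (k + 1) x z ^ d‖ := by congr 1; ring
              _ ≤ _ := norm_add_le _ _
              _ ≤ 1 / 4 * u + δ := by linarith
          refine ⟨h3.trans ?_, h3.trans ?_⟩
          · rw [pow_succ (1 / 4 : ℝ) (k + 1)]
            linarith
          · linarith
      have h1 := (key (m₁ + m₂) (by omega)).1
      rw [← hm] at h1
      rw [hb0 _ (hTk m (by omega) le_rfl), sub_zero]
      linarith
    · refine ⟨1, le_rfl, ?_⟩
      show ‖(g x).eval z - b (T x)‖ ≤ ρ / 2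
      rw [heval]
      rw [hb0 x hxV, sub_zero] at hz
      have h2 : c x = b (T x) := by
        show b (T x) - b x ^ d = _
        rw [hb0 x hxV, zero_pow (by omega), sub_zero]
      have h3 : z ^ d + c' x - b (T x) = z ^ d + (c' x - c x) := by rw [h2]; ring
      rw [h3]
      have h4 : ‖z ^ d‖ ≤ 1 / 64 * ρ := by
        rw [norm_pow]
        calc ‖z‖ ^ d ≤ ‖z‖ ^ 2 := pow_le_pow_of_le_one (norm_nonneg _) (by linarith) hd
          _ = ‖z‖ * ‖z‖ := by ring
          _ ≤ 1 / 64 * ρ := by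
              have := norm_nonneg z
              nlinarith
      have h5 := (hclo x).le
      calc ‖z ^ d + (c' x - c x)‖ ≤ ‖z ^ d‖ + ‖c' x - c x‖ := norm_add_le _ _
        _ ≤ ρ / 2 := by linarith
  have hbR : ∀ x, ‖b x‖ + ρ ≤ R := fun x => by
    have := hbn x
    linarith
  -- the first point is good
  have hx₀G : x₀ ∈ Gu T g b ρ := by
    refine ⟨0, ?_⟩
    show ‖(0 : ℂ) - b x₀‖ < ρ
    rw [hb0 x₀ hx₀V, sub_zero, norm_zero]
    exact hρ0
  -- the second one is not
  have hx₁G : x₁ ∉ Gu T g b ρ := by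
    rintro ⟨k, hk⟩
    have hTk : ∀ k, 1 ≤ k → k ≤ m → T^[k] x₁ ∉ V := hret x₁ hx₁V
    have hrun : ∀ k, k + 1 ≤ m → 2 * (3 / 2) ^ k ≤ ‖fib T g (k + 1) x₁ 0‖ := by
      intro k
      induction k with
      | zero =>
        intro _
        show 2 * (3 / 2) ^ 0 ≤ ‖(g x₁).eval 0‖
        rw [heval, zero_pow (by omega), zero_add, pow_zero, mul_one]
        have hTx : T x₁ ∉ V := hTk 1 le_rfl (by omega)
        have h2 : c x₁ = - b x₁ ^ d := by
          show b (T x₁) - b x₁ ^ d = _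
          rw [hb0 _ hTx, zero_sub]
        have h3 : ‖c x₁‖ ≤ ‖c' x₁‖ + ‖c' x₁ - c x₁‖ := by
          calc ‖c x₁‖ = ‖c' x₁ - (c' x₁ - c x₁)‖ := by congr 1; ring
            _ ≤ _ := norm_sub_le _ _
        have h4 : (9 / 4 : ℝ) ≤ ‖c x₁‖ := by
          rw [h2, norm_neg, norm_pow, hb1]
          calc (9 / 4 : ℝ) = (3 / 2) ^ 2 := by norm_num
            _ ≤ (3 / 2) ^ d := pow_le_pow_right₀ (by norm_num) hd
        have h5 := (hclo x₁).le
        linarith
      | succ k ih =>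
        intro hk
        have h4 := ih (by omega)
        have h5 : (1 : ℝ) ≤ (3 / 2) ^ k := one_le_pow₀ (by norm_num)
        have hTk2 := hTk (k + 1 + 1) (by omega) hk
        rw [Function.iterate_succ_apply'] at hTk2
        have h1 := hstep0 (T^[k + 1] x₁) (fib T g (k + 1) x₁ 0) (hTk _ (by omega) (by omega)) hTk2
        rw [← fib_succ] at h1
        set u := ‖fib T g (k + 1) x₁ 0‖ with hu
        have hu2 : 2 ≤ u := by linarith
        have h6 : u ^ 2 ≤ ‖fib T g (k + 1) x₁ 0 ^ d‖ := by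
          rw [norm_pow, ← hu]
          exact pow_le_pow_right₀ (by linarith) hd
        have h7 : ‖fib T g (k + 1) x₁ 0 ^ d‖ ≤ ‖fib T g (k + 1 + 1) x₁ 0‖ +
            ‖fib T g (k + 1 + 1) x₁ 0 - fib T g (k + 1) x₁ 0 ^ d‖ := by
          calc ‖fib T g (k + 1) x₁ 0 ^ d‖ = ‖fib T g (k + 1 + 1) x₁ 0 -
                (fib T g (k + 1 + 1) x₁ 0 - fib T g (k + 1) x₁ 0 ^ d)‖ := by congr 1; ring
            _ ≤ _ := norm_sub_le _ _
        rw [pow_succ]
        nlinarith
    have hk' : ‖fib T g k x₁ 0 - b (T^[k] x₁)‖ < ρ := hk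
    have htri : ‖fib T g k x₁ 0‖ ≤ ‖fib T g k x₁ 0 - b (T^[k] x₁)‖ + ‖b (T^[k] x₁)‖ := by
      calc ‖fib T g k x₁ 0‖ = ‖(fib T g k x₁ 0 - b (T^[k] x₁)) + b (T^[k] x₁)‖ := by
            congr 1; ring
        _ ≤ _ := norm_add_le _ _
    rcases Nat.eq_zero_or_pos k with rfl | hkpos
    · have h1 : ‖(0 : ℂ) - b x₁‖ < ρ := hk'
      rw [zero_sub, norm_neg, hb1] at h1
      linarith
    · rcases Nat.lt_or_ge m k with hmk | hmk
      · have h4 := hrun (m₁ + m₂) (by omega)
        have e1 : m₁ + m₂ + 1 = m := hm.symm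
        rw [e1] at h4
        have h5 := fib_big (T := T) hR1 hesc (x := T^[m] x₁) (z := fib T g m x₁ 0)
          (by linarith) (k - m)
        rw [← fib_add] at h5
        have e : k - m + m = k := by omega
        rw [e] at h5
        have h6 : (1 : ℝ) ≤ 2 ^ (k - m) := one_le_pow₀ (by norm_num)
        have h7 := hbn (T^[k] x₁)
        nlinarith
      · have h4 := hrun (k - 1) (by omega)
        have e : k - 1 + 1 = k := by omega
        rw [e] at h4
        have h5 : (1 : ℝ) ≤ (3 / 2) ^ (k - 1) := one_le_pow₀ (by norm_num)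
        rw [hb0 _ (hTk k hkpos hmk), sub_zero] at hk'
        linarith
  exact hx₁G (goodU_on hT hYc hY hmin (uni_cont hc') (fun x => (uni_deg (by omega) x).le)
    (fun x => (uni_crit hd x 0).2 rfl) hR1 hesc hbc (by linarith) hbR hrec hr hl0 hl1 hyp
    hsY hs hx₀ hx₀G hx₁)

end Pool.Agent.Y334.FU
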