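import Mathlib
import Pool.Agent.Y334.FU.Ex

/-! Unicritical fibered polynomials: density of hyperbolicity. -/

set_option autoImplicit false

open Filter Topology Metric Set Polynomial

namespace Pool.Agent.Y334.FU

open Pool.Agent.Y334.NA Pool.Agent.Y334.FP Pool.Agent.Y334.FN Pool.Agent.Y334.FS

/-- density over aperiodic totally disconnected bases -/
theorem densU {X : Type} [TopologicalSpace X] [CompactSpace X] [T2Space X]
    [TotallyDisconnectedSpace X] (T : X ≃ₜ X) (hT : ∀ x : X, ∀ k : ℕ, 1 ≤ k → (⇑T)^[k] x ≠ x)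
    {d : ℕ} (hd : 2 ≤ d) {c : X → ℂ} (hc : Continuous c) {ε : ℝ}
    (hε : 0 < ε) : ∃ (s : X → ℂ) (r C lam : ℝ), LC s ∧ (∀ x, ‖s x‖ < ε) ∧ 0 < r ∧ 0 < lam ∧
      lam < 1 ∧ HypP (⇑T) (uni d fun x => c x + s x) r C lam := by
  obtain ⟨s, r, C, lam, h1, h2, hr, hl0, hl1, h3⟩ := dens T hT (P := uni d c) (uni_cont hc)
    ((IsLocallyConstant.iff_eventually_eq _).2 fun x => Eventually.of_forall fun y => by
      rw [uni_deg (by omega), uni_deg (by omega)]) (fun x => by rw [uni_deg (by omega)]; exact hd)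
    hε
  refine ⟨s, r, C, lam, h1, h2, hr, hl0, hl1, ?_⟩
  have e : (uni d fun x => c x + s x) = fun x => uni d c x + Polynomial.C (s x) := by
    funext x
    simp only [uni, map_add, add_assoc]
  rw [e]
  exact h3

/-- minimal bases -/
theorem minimal_iffU {X : Type} [TopologicalSpace X] [CompactSpace X] [T2Space X] [Infinite X]
    (T : X ≃ₜ X) (hmin : ∀ x : X, Dense (range fun k : ℕ => (⇑T)^[k] x)) {d : ℕ} (hd : 2 ≤ d) :
    (∀ c : X → ℂ, Continuous c → ∀ ε : ℝ, 0 < ε → ∃ c' : X → ℂ, Continuous c' ∧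
        (∀ x, ‖c' x - c x‖ < ε) ∧
        ∃ r C lam : ℝ, 0 < r ∧ 0 < lam ∧ lam < 1 ∧ HypP (⇑T) (uni d c') r C lam) ↔
      TotallyDisconnectedSpace X := by
  have hap := fun x k hk => aper_of_minimal hmin x k hk
  constructor
  · intro h
    by_contra htd
    obtain ⟨c, δ, hδ, h1, h3⟩ := robustU T.continuous isClosed_univ (mapsTo_univ _ _)
      (fun x _ => by rw [(hmin x).closure_eq]) Set.infinite_univ (fun h' => htd ⟨h'⟩) hd
    obtain ⟨c', h4, h6, r, C, lam, hr, hl0, hl1, h7⟩ := h c h1 δ hδ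
    exact h3 c' h4 h6 r C lam hr hl0 hl1 h7
  · intro htd c hc ε hε
    obtain ⟨s, r, C, lam, h1, h2, hr, hl0, hl1, h3⟩ := densU T hap hd hc hε
    refine ⟨fun x => c x + s x, hc.add (cont_of_lc h1), fun x => ?_, r, C, lam, hr, hl0, hl1, h3⟩
    rw [add_sub_cancel_left]
    exact h2 x

end Pool.Agent.Y334.FU
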